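import Pool.Agent.N640.WR.Stm

set_option autoImplicit false

/-!
Basic facts on orbits and the multigraph.
-/

namespace Pool.Agent.N640.WR

open Finset SimpleGraph Pool.Agent.X76.Wr Pool.Agent.MPd14d18

variable {W : Type} {G' : SimpleGraph W} {idx : W → ℕ} {A : W → ℕ → Finset ℕ} {d : ℕ}

theorem ob_refl (v : W) : Ob G' v v := ⟨SimpleGraph.Iso.refl, rfl⟩

theorem ob_symm {v w : W} (h : Ob G' v w) : Ob G' w v := by
  obtain ⟨φ, rfl⟩ := h
  exact ⟨φ.symm, by simp⟩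

theorem ob_trans {u v w : W} (h : Ob G' u v) (h' : Ob G' v w) : Ob G' u w := by
  obtain ⟨φ, rfl⟩ := h
  obtain ⟨ψ, rfl⟩ := h'
  exact ⟨φ.trans ψ, by simp⟩

theorem ob_orb {v w : W} (h : Ob G' v w) : orb G' v = orb G' w := orb_eq G' v w h

theorem df_facts (hidx1 : ∀ w, idx w < orb G' w)
    (hidx2 : ∀ w w', Ob G' w w' → idx w = idx w' → w = w') {v w : W} (h : Ob G' v w)
    (hne : v ≠ w) : df G' idx v w + df G' idx w v = orb G' v ∧ 1 ≤ df G' idx v w ∧
      df G' idx v w < orb G' v := by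
  have e := ob_orb h
  have h1 := hidx1 v
  have h2 := hidx1 w
  have h3 : idx v ≠ idx w := fun h' => hne (hidx2 v w h h')
  unfold df
  rw [← e] at h2 ⊢
  rw [mod_aux _ _ _ h1 h2, mod_aux _ _ _ h2 h1]
  split_ifs <;> omega

theorem df_inj (hidx1 : ∀ w, idx w < orb G' w)
    (hidx2 : ∀ w w', Ob G' w w' → idx w = idx w' → w = w') {v w w' : W} (h : Ob G' v w)
    (h' : Ob G' v w') (heq : df G' idx v w = df G' idx v w') : w = w' := by
  have h1 := hidx1 v
  have h2 := hidx1 w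
  have h3 := hidx1 w'
  rw [← ob_orb h] at h2
  rw [← ob_orb h'] at h3
  apply hidx2 w w' (ob_trans (ob_symm h) h')
  unfold df at heq
  rw [mod_aux _ _ _ h1 h2, mod_aux _ _ _ h1 h3] at heq
  split_ifs at heq <;> omega

theorem me_symm (hidx1 : ∀ w, idx w < orb G' w)
    (hidx2 : ∀ w w', Ob G' w w' → idx w = idx w' → w = w')
    (hA0 : ∀ v w, Ob G' v w → A v = A w)
    (hA : ∀ v, ∀ i < d, ∀ δ ∈ A v i, 1 ≤ δ ∧ δ < orb G' v ∧ orb G' v - δ ∈ A v i)
    {v w : W} {i : ℕ} (h : ME G' d idx A v w i) : ME G' d idx A w v i := by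
  rcases h with ⟨h1, h2⟩ | ⟨h1, h2, h3, h4⟩
  · exact Or.inl ⟨h1, h2.symm⟩
  · refine Or.inr ⟨h1, ob_symm h2, Ne.symm h3, ?_⟩
    have h5 := df_facts hidx1 hidx2 h2 h3
    have h6 := (hA v i h1 _ h4).2.2
    rw [← hA0 v w h2]
    have h7 : orb G' v - df G' idx v w = df G' idx w v := by omega
    rw [h7] at h6
    exact h6

end Pool.Agent.N640.WR
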