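import Pool.Agent.N640.WR.G1

set_option autoImplicit false

/-!
Degrees and multiplicities in the multigraph.
-/

namespace Pool.Agent.N640.WR

open Finset SimpleGraph Pool.Agent.X76.Wr Pool.Agent.MPd14d18

variable {W : Type} {G' : SimpleGraph W} {idx : W → ℕ} {A : W → ℕ → Finset ℕ} {d : ℕ}

open Classical in
/-- the edges between two vertices -/
noncomputable def Es (G' : SimpleGraph W) (d : ℕ) (idx : W → ℕ) (A : W → ℕ → Finset ℕ)
    (v w : W) : Finset ℕ := (Finset.range (d + 1)).filter fun i => ME G' d idx A v w i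

theorem me_le {v w : W} {i : ℕ} (h : ME G' d idx A v w i) : i < d + 1 := by
  rcases h with ⟨h1, -⟩ | ⟨h1, -⟩ <;> omega

theorem mem_Es {v w : W} {i : ℕ} : i ∈ Es G' d idx A v w ↔ ME G' d idx A v w i := by
  classical
  unfold Es
  rw [mem_filter, mem_range]
  exact ⟨fun h => h.2, fun h => ⟨me_le h, h⟩⟩

theorem Es_symm (hidx1 : ∀ w, idx w < orb G' w)
    (hidx2 : ∀ w w', Ob G' w w' → idx w = idx w' → w = w')
    (hA0 : ∀ v w, Ob G' v w → A v = A w)
    (hA : ∀ v, ∀ i < d, ∀ δ ∈ A v i, 1 ≤ δ ∧ δ < orb G' v ∧ orb G' v - δ ∈ A v i)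
    (v w : W) : Es G' d idx A v w = Es G' d idx A w v := by
  ext i
  rw [mem_Es, mem_Es]
  exact ⟨me_symm hidx1 hidx2 hA0 hA, me_symm hidx1 hidx2 hA0 hA⟩

theorem Es_card_le (v w : W) : (Es G' d idx A v w).card ≤ d + 1 := by
  have : Es G' d idx A v w ⊆ Finset.range (d + 1) := fun i hi =>
    mem_range.2 (me_le (mem_Es.1 hi))
  exact (Finset.card_le_card this).trans (by simp)

theorem Es_card_nonadj {v w : W} (h : ¬ G'.Adj v w) : (Es G' d idx A v w).card ≤ d := by
  have : Es G' d idx A v w ⊆ Finset.range d := by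
    intro i hi
    rw [mem_Es] at hi
    rw [mem_range]
    rcases hi with ⟨-, h1⟩ | ⟨h1, -⟩
    · exact absurd h1 h
    · exact h1
  exact (Finset.card_le_card this).trans (by simp)

theorem Es_card_one {v w : W} (h : ¬ Ob G' v w ∨ ∀ i < d, A v i = ∅) :
    (Es G' d idx A v w).card ≤ 1 := by
  have : Es G' d idx A v w ⊆ {d} := by
    intro i hi
    rw [mem_Es] at hi
    rw [mem_singleton]
    rcases hi with ⟨h1, -⟩ | ⟨h1, h2, h3, h4⟩
    · exact h1
    · exfalso
      rcases h with h | h
      · exact h h2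
      · rw [h i h1] at h4
        exact absurd h4 (Finset.notMem_empty _)
  exact (Finset.card_le_card this).trans (by simp)

variable [Fintype W] [DecidableRel G'.Adj]

omit [DecidableRel G'.Adj] in
open Classical in
theorem layer_card (hidx1 : ∀ w, idx w < orb G' w)
    (hidx2 : ∀ w w', Ob G' w w' → idx w = idx w' → w = w') (v : W) (i : ℕ) (hi : i < d) :
    ((univ : Finset W).filter fun w => ME G' d idx A v w i).card ≤ (A v i).card := by
  apply Finset.card_le_card_of_injOn (fun w => df G' idx v w)
  · intro w hw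
    rw [mem_coe, mem_filter] at hw
    rcases hw.2 with ⟨h1, -⟩ | ⟨-, -, -, h4⟩
    · omega
    · exact h4
  · intro w hw w' hw' heq
    rw [mem_coe, mem_filter] at hw hw'
    rcases hw.2 with ⟨h1, -⟩ | ⟨-, h2, -, -⟩
    · omega
    rcases hw'.2 with ⟨h1, -⟩ | ⟨-, h2', -, -⟩
    · omega
    exact df_inj hidx1 hidx2 h2 h2' heq

theorem deg_le [DecidableEq W] (hidx1 : ∀ w, idx w < orb G' w)
    (hidx2 : ∀ w w', Ob G' w w' → idx w = idx w' → w = w') (v : W) (S : Finset W) :
    ∑ w ∈ S, (Es G' d idx A v w).card ≤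
      G'.degree v + ∑ i ∈ Finset.range d, (A v i).card := by
  classical
  calc ∑ w ∈ S, (Es G' d idx A v w).card
      ≤ ∑ w, (Es G' d idx A v w).card := Finset.sum_le_sum_of_subset (Finset.subset_univ _)
    _ = ∑ w, ∑ i ∈ Finset.range (d + 1), (if ME G' d idx A v w i then 1 else 0) := by
        refine Finset.sum_congr rfl fun w _ => ?_
        unfold Es
        rw [Finset.card_filter]
    _ = ∑ i ∈ Finset.range (d + 1), ∑ w, (if ME G' d idx A v w i then 1 else 0) :=
        Finset.sum_comm
    _ = ∑ i ∈ Finset.range (d + 1), ((univ : Finset W).filter fun w => ME G' d idx A v w i).card := by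
        refine Finset.sum_congr rfl fun i _ => ?_
        rw [Finset.card_filter]
    _ = ∑ i ∈ Finset.range d, ((univ : Finset W).filter fun w => ME G' d idx A v w i).card +
        ((univ : Finset W).filter fun w => ME G' d idx A v w d).card := Finset.sum_range_succ _ _
    _ ≤ ∑ i ∈ Finset.range d, (A v i).card + G'.degree v := by
        apply Nat.add_le_add
        · apply Finset.sum_le_sum
          intro i hi
          exact layer_card hidx1 hidx2 v i (mem_range.1 hi)
        · rw [← SimpleGraph.card_neighborFinset_eq_degree]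
          apply Finset.card_le_card
          intro w hw
          rw [mem_filter] at hw
          rw [SimpleGraph.mem_neighborFinset]
          rcases hw.2 with ⟨-, h1⟩ | ⟨h1, -⟩
          · exact h1
          · omega
    _ = G'.degree v + ∑ i ∈ Finset.range d, (A v i).card := by omega

end Pool.Agent.N640.WR
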