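import Pool.Agent.N640.WR.G2

set_option autoImplicit false

/-!
The order of elimination.
-/

namespace Pool.Agent.N640.WR

open Finset SimpleGraph Pool.Agent.X76.Wr Pool.Agent.MPd14d18

theorem elimination {W : Type} [Fintype W] [DecidableEq W] (G' : SimpleGraph W)
    [DecidableRel G'.Adj]
    (d D : ℕ) (idx : W → ℕ) (t : W → ℕ) (A : W → ℕ → Finset ℕ)
    (hd : 1 ≤ d) (hD : ∀ w, d * orb G' w + G'.degree w ≤ D)
    (hidx1 : ∀ w, idx w < orb G' w) (hidx2 : ∀ w w', Ob G' w w' → idx w = idx w' → w = w')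
    (ht : ∀ v w, Ob G' v w ∨ G'.Adj v w → t v = t w)
    (ht1 : ∀ v, t v + 1 ≤ d * orb G' v)
    (hwalk : ∀ v, ∃ u, Relation.ReflTransGen (fun a b => Ob G' a b ∨ G'.Adj a b) v u ∧
      d * orb G' u ≤ t u + 2)
    (hA0 : ∀ v w, Ob G' v w → A v = A w)
    (hA : ∀ v, ∀ i < d, ∀ δ ∈ A v i, 1 ≤ δ ∧ δ < orb G' v ∧ orb G' v - δ ∈ A v i)
    (hsum : ∀ v, ∑ i ∈ Finset.range d, (A v i).card = d * (orb G' v - 1) - t v)
    (N : ℕ) (S : Finset W) (hS : ∀ v ∈ S, D - t v = N) (hne : S.Nonempty) :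
    ∃ x ∈ S, ∃ u0, ∀ u ∈ S, u ≠ x → (Es G' d idx A x u).card ≠ 0 →
      (∑ w ∈ S.erase u, (Es G' d idx A u w).card) + (Es G' d idx A x u).card ≤
        N + if u = u0 then 1 else 0 := by
  classical
  have hm : ∀ w, 1 ≤ orb G' w := fun w => lt_of_le_of_lt (Nat.zero_le _) (hidx1 w)
  have hmul : ∀ w, d * (orb G' w - 1) + d = d * orb G' w := by
    intro w
    obtain ⟨k, hk⟩ : ∃ k, orb G' w = k + 1 := ⟨orb G' w - 1, by have := hm w; omega⟩
    rw [hk, Nat.add_sub_cancel, Nat.mul_succ]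
  -- bad vertices
  have F1 : ∀ x ∈ S, ∀ u ∈ S, u ≠ x →
      N < (∑ w ∈ S.erase u, (Es G' d idx A u w).card) + (Es G' d idx A x u).card →
      Ob G' x u ∧ (Es G' d idx A x u).card = d + 1 ∧
      (∑ w ∈ S.erase u, (Es G' d idx A u w).card) + (Es G' d idx A x u).card ≤ N + 1 ∧
      0 < d * (orb G' u - 1) - t u ∧
      ∀ w, w ≠ u → (Es G' d idx A u w).card ≠ 0 → w ∈ S := by
    intro x hx u hu hux hbad
    have h1 := deg_le (d := d) (A := A) hidx1 hidx2 u (S.erase u)
    rw [hsum u] at h1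
    have h2 := hD u
    have h3 := hmul u
    have h4 := ht1 u
    have h5 := hS u hu
    have h6 := Es_card_le (G' := G') (idx := idx) (A := A) (d := d) x u
    have hr : 0 < d * (orb G' u - 1) - t u := by
      by_contra hr
      have hr0 : d * (orb G' u - 1) - t u = 0 := by omega
      have h7 : (Es G' d idx A x u).card ≤ 1 := by
        apply Es_card_one
        by_cases h8 : Ob G' x u
        · right
          intro i hi
          rw [hA0 x u h8]
          have h9 := hsum u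
          rw [hr0, Finset.sum_eq_zero_iff] at h9
          exact Finset.card_eq_zero.1 (h9 i (mem_range.2 hi))
        · exact Or.inl h8
      omega
    have hadj : G'.Adj x u := by
      by_contra h7
      have h8 := Es_card_nonadj (idx := idx) (A := A) (d := d) h7
      omega
    have hob : Ob G' x u := by
      by_contra h7
      have h8 := Es_card_one (idx := idx) (A := A) (d := d) (Or.inl h7)
      omega
    refine ⟨hob, by omega, by omega, hr, ?_⟩
    intro w hwu hw
    by_contra hwS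
    have h7 := deg_le (d := d) (A := A) hidx1 hidx2 u (insert w (S.erase u))
    rw [hsum u, Finset.sum_insert (by simp [hwS])] at h7
    omega
  by_contra hcon
  push Not at hcon
  have F2 : ∀ x ∈ S, ∃ u1 ∈ S, ∃ u2 ∈ S, u1 ≠ x ∧ u2 ≠ x ∧ u1 ≠ u2 ∧
      N < (∑ w ∈ S.erase u1, (Es G' d idx A u1 w).card) + (Es G' d idx A x u1).card ∧
      N < (∑ w ∈ S.erase u2, (Es G' d idx A u2 w).card) + (Es G' d idx A x u2).card := by
    intro x hx
    obtain ⟨u1, h1, h2, -, h3⟩ := hcon x hx x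
    rw [if_neg h2, add_zero] at h3
    obtain ⟨u2, h4, h5, -, h6⟩ := hcon x hx u1
    refine ⟨u1, h1, u2, h4, h2, h5, ?_, h3, ?_⟩
    · rintro rfl
      rw [if_pos rfl] at h6
      have h7 := (F1 x hx u1 h1 h2 h3).2.2.1
      omega
    · split_ifs at h6 <;> omega
  have F3 : ∀ a b, Relation.ReflTransGen (fun a b => Ob G' a b ∨ G'.Adj a b) a b →
      (∃ y ∈ S, Ob G' y a) → ∃ y ∈ S, Ob G' y b := by
    intro a b hab hy
    induction hab with
    | refl => exact hy
    | tail _ hstep ih =>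
      obtain ⟨y, hyS, hyo⟩ := ih
      rcases hstep with h | h
      · exact ⟨y, hyS, ob_trans hyo h⟩
      · obtain ⟨u1, h1, -, -, h2, -, -, h3, -⟩ := F2 y hyS
        obtain ⟨h4, -, -, -, h5⟩ := F1 y hyS u1 h1 h2 h3
        obtain ⟨φ, hφ⟩ := ob_trans (ob_symm hyo) h4
        rename_i b' c' _
        have h6 : G'.Adj u1 (φ c') := by
          rw [← hφ]
          exact φ.map_adj_iff.2 h
        have h7 : φ c' ∈ S := by
          apply h5 _ (G'.ne_of_adj h6).symm
          rw [Finset.card_ne_zero]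
          exact ⟨d, mem_Es.2 (Or.inl ⟨rfl, h6⟩)⟩
        exact ⟨φ c', h7, φ.symm, by simp⟩
  obtain ⟨x, hx⟩ := hne
  obtain ⟨u, hu1, hu2⟩ := hwalk x
  obtain ⟨y, hyS, hyo⟩ := F3 x u hu1 ⟨x, hx, ob_refl x⟩
  obtain ⟨u1, h1, u2, h2, h3, h4, h5, h6, h7⟩ := F2 y hyS
  obtain ⟨a1, a2, -, a4, -⟩ := F1 y hyS u1 h1 h3 h6
  obtain ⟨b1, b2, -, -, -⟩ := F1 y hyS u2 h2 h4 h7
  rw [← ob_orb hyo, ← ht y u (Or.inl hyo)] at hu2
  rw [← ob_orb a1, ← ht y u1 (Or.inl a1)] at a4
  have e1 := hmul y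
  have hd1 : d = 1 := by omega
  subst hd1
  have e2 : ∀ w, (Es G' 1 idx A y w).card = 1 + 1 → ME G' 1 idx A y w 0 := by
    intro w hw
    rw [← mem_Es]
    have h8 : Es G' 1 idx A y w ⊆ Finset.range 2 := fun i hi =>
      mem_range.2 (me_le (mem_Es.1 hi))
    have h9 := Finset.eq_of_subset_of_card_le h8 (by rw [hw]; simp)
    rw [h9]
    simp
  have e3 := layer_card (A := A) (d := 1) hidx1 hidx2 y 0 one_pos
  have e4 : (A y 0).card ≤ 1 := by
    have h8 := hsum y
    rw [Finset.sum_range_one] at h8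
    omega
  have e5 : ({u1, u2} : Finset W).card ≤
      ((univ : Finset W).filter fun w => ME G' 1 idx A y w 0).card := by
    apply Finset.card_le_card
    intro w hw
    rw [mem_filter]
    rw [mem_insert, mem_singleton] at hw
    refine ⟨mem_univ _, ?_⟩
    rcases hw with rfl | rfl
    · exact e2 _ a2
    · exact e2 _ b2
  rw [Finset.card_pair h5] at e5
  omega

end Pool.Agent.N640.WR
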