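import Pool.Agent.N640.WR.G3

set_option autoImplicit false

/-!
The colouring of the multigraph.
-/

namespace Pool.Agent.N640.WR

open Finset SimpleGraph Pool.Agent.X76.Wr Pool.Agent.MPd14d18

theorem gcol_ (hel : S_ELIM) : S_GCOL := by
  intro W _ G' _ d D idx t A hd hD hidx1 hidx2 ht ht1 hwalk hA0 hA hsum
  classical
  have hm : ∀ w, 1 ≤ orb G' w := fun w => lt_of_le_of_lt (Nat.zero_le _) (hidx1 w)
  have hmul : ∀ w, d * (orb G' w - 1) + d = d * orb G' w := by
    intro w
    obtain ⟨k, hk⟩ : ∃ k, orb G' w = k + 1 := ⟨orb G' w - 1, by have := hm w; omega⟩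
    rw [hk, Nat.add_sub_cancel, Nat.mul_succ]
  -- colourings of the classes
  have hcls : ∀ N : ℕ, ∃ m : ℕ → W → W, (∀ c v, m c (m c v) = v) ∧ ∀ u w, u ≠ w →
      mu (Finset.range N) m u w =
        if u ∈ (univ : Finset W).filter (fun v => D - t v = N) ∧
          w ∈ (univ : Finset W).filter (fun v => D - t v = N) then
          (Es G' d idx A u w).card else 0 := by
    intro N
    apply hel W (fun u w => (Es G' d idx A u w).card) N
      ((univ : Finset W).filter fun v => D - t v = N)
    · intro x y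
      show (Es G' d idx A x y).card = (Es G' d idx A y x).card
      rw [Es_symm hidx1 hidx2 hA0 hA x y]
    · intro v hv
      rw [mem_filter] at hv
      have h1 := deg_le (d := d) (A := A) hidx1 hidx2 v
        (((univ : Finset W).filter fun v => D - t v = N).erase v)
      rw [hsum v] at h1
      have h2 := hD v
      have h3 := hmul v
      have h4 := ht1 v
      have h5 := hv.2
      show ∑ w ∈ ((univ : Finset W).filter fun v => D - t v = N).erase v,
        (Es G' d idx A v w).card ≤ N
      omega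
    · intro S hS hne
      exact elimination G' d D idx t A hd hD hidx1 hidx2 ht ht1 hwalk hA0 hA hsum N S
        (fun v hv => (mem_filter.1 (hS hv)).2) hne
  choose m hm1 hm2 using hcls
  -- injections
  have hF : ∀ E C : Finset ℕ, ∃ f : ℕ → ℕ, E.card = C.card →
      (∀ i ∈ E, f i ∈ C) ∧ ∀ i ∈ E, ∀ j ∈ E, f i = f j → i = j := by
    intro E C
    by_cases h : E.card = C.card
    · let e : E ≃ C := Finset.equivOfCardEq h
      refine ⟨fun i => if h : i ∈ E then (e ⟨i, h⟩).1 else 0, fun _ => ⟨?_, ?_⟩⟩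
      · intro i hi
        simp only [dif_pos hi]
        exact (e ⟨i, hi⟩).2
      · intro i hi j hj hij
        simp only [dif_pos hi, dif_pos hj] at hij
        have h1 := e.injective (Subtype.ext hij)
        exact congrArg Subtype.val h1
    · exact ⟨fun _ => 0, fun h' => absurd h' h⟩
  choose F hF using hF
  let C : W → W → Finset ℕ := fun v w =>
    (Finset.range (D - t v)).filter fun c => m (D - t v) c v = w
  have hlink : ∀ v w i, ME G' d idx A v w i → v ≠ w ∧ t v = t w := by
    rintro v w i (⟨-, h2⟩ | ⟨-, h2, h3, -⟩)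
    · exact ⟨G'.ne_of_adj h2, ht v w (Or.inr h2)⟩
    · exact ⟨h3, ht v w (Or.inl h2)⟩
  have hcard : ∀ v w i, ME G' d idx A v w i → (Es G' d idx A v w).card = (C v w).card := by
    intro v w i h
    obtain ⟨h1, h2⟩ := hlink v w i h
    have h3 := hm2 (D - t v) v w h1
    rw [mu_eq_card, if_pos ⟨mem_filter.2 ⟨mem_univ _, rfl⟩, mem_filter.2 ⟨mem_univ _, by rw [h2]⟩⟩]
      at h3
    exact h3.symm
  have hCsymm : ∀ v w, t v = t w → C v w = C w v := by
    intro v w h
    ext c
    simp only [C, mem_filter, h]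
    constructor
    · rintro ⟨h1, h2⟩
      have h3 := hm1 (D - t w) c v
      rw [h2] at h3
      exact ⟨h1, h3⟩
    · rintro ⟨h1, h2⟩
      have h3 := hm1 (D - t w) c w
      rw [h2] at h3
      exact ⟨h1, h3⟩
  refine ⟨fun v w i => F (Es G' d idx A v w) (C v w) i, ?_, ?_⟩
  · intro v w i h
    obtain ⟨h1, h2⟩ := hlink v w i h
    refine ⟨?_, ?_⟩
    · have h3 := (hF _ _ (hcard v w i h)).1 i (mem_Es.2 h)
      have h4 := mem_range.1 (mem_filter.1 h3).1
      show F (Es G' d idx A v w) (C v w) i + t v < D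
      omega
    · show F (Es G' d idx A v w) (C v w) i = F (Es G' d idx A w v) (C w v) i
      rw [hCsymm v w h2, Es_symm hidx1 hidx2 hA0 hA v w]
  · intro v w i w' i' h h' heq
    have h3 := (hF _ _ (hcard v w i h)).1 i (mem_Es.2 h)
    have h4 := (hF _ _ (hcard v w' i' h')).1 i' (mem_Es.2 h')
    have heq' : F (Es G' d idx A v w) (C v w) i = F (Es G' d idx A v w') (C v w') i' := heq
    rw [← heq'] at h4
    have h5 : w = w' := (mem_filter.1 h3).2.symm.trans (mem_filter.1 h4).2
    subst h5
    exact ⟨rfl, (hF _ _ (hcard v w i h)).2 i (mem_Es.2 h) i' (mem_Es.2 h') heq'⟩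

end Pool.Agent.N640.WR
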