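import Pool.Agent.N640.WR.Stm

set_option autoImplicit false

namespace Pool.Agent.N640.WR

open Finset SimpleGraph Pool.Agent.X76.Wr Pool.Agent.MPd14d18

theorem main_ (hlay : S_LAY) (htt : S_TT) (hg : S_GCOL) (hasm : S_ASM) : S_MAIN := by
  intro V W _ _ G G' _ d D hd hG h1
  classical
  obtain ⟨idx, hidx1, hidx2⟩ := exists_idx G'
  obtain ⟨t, ht1, ht2, ht3, ht4⟩ := htt W G' d hd
  have hm : ∀ w, 1 ≤ orb G' w := fun w => lt_of_le_of_lt (Nat.zero_le _) (hidx1 w)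
  have hL : ∀ p : ℕ × ℕ, ∃ (A : ℕ → Finset ℕ) (ψ : ℕ → ℕ → ℕ), 1 ≤ p.1 → p.2 % 2 = 0 →
      (∀ i < d, ∀ δ ∈ A i, 1 ≤ δ ∧ δ < p.1 ∧ p.1 - δ ∈ A i) ∧
      ∑ i ∈ Finset.range d, (A i).card = d * (p.1 - 1) - p.2 ∧
      (∀ i < d, ∀ δ, 1 ≤ δ → δ < p.1 → δ ∉ A i → ψ i δ < p.2) ∧
      (∀ i < d, ∀ i' < d, ∀ δ δ', 1 ≤ δ → δ < p.1 → δ ∉ A i → 1 ≤ δ' → δ' < p.1 → δ' ∉ A i' →
        ψ i δ = ψ i' δ' → i = i' ∧ δ = δ') := by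
    intro p
    by_cases h : 1 ≤ p.1 ∧ p.2 % 2 = 0
    · obtain ⟨A, ψ, h⟩ := hlay d p.1 p.2 h.1 h.2
      exact ⟨A, ψ, fun _ _ => h⟩
    · exact ⟨fun _ => ∅, fun _ _ => 0, fun h2 h3 => absurd ⟨h2, h3⟩ h⟩
  choose A0 ψ0 hA0 using hL
  let A : W → ℕ → Finset ℕ := fun v => A0 (orb G' v, t v)
  let ψ : W → ℕ → ℕ → ℕ := fun v => ψ0 (orb G' v, t v)
  have hAψ : ∀ v w, Ob G' v w → t v = t w ∧ A v = A w ∧ ψ v = ψ w := by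
    intro v w h
    have e1 := ht2 v w (Or.inl h)
    have e2 : orb G' v = orb G' w := orb_eq G' v w h
    refine ⟨e1, ?_, ?_⟩
    · simp only [A, e1, e2]
    · simp only [ψ, e1, e2]
  have hA := fun v => hA0 (orb G' v, t v) (hm v) (ht1 v)
  obtain ⟨g, hg1, hg2⟩ := hg W G' d D idx t A hd h1 hidx1 hidx2 ht2 ht3 ht4
    (fun v w h => (hAψ v w h).2.1) (fun v => (hA v).1) (fun v => (hA v).2.1)
  refine hasm V W G G' d D idx t A ψ g hG h1 hidx1 hidx2 ?_ hAψ (fun v => (hA v).1)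
    (fun v => (hA v).2.2.1) (fun v => (hA v).2.2.2) hg1 hg2
  intro v
  have := h1 v
  have := ht3 v
  omega

end Pool.Agent.N640.WR
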