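import Pool.Agent.N640.WR.W0

set_option autoImplicit false

/-!
Statements of the parts of the proof that wreath products are of class `1`.
-/

namespace Pool.Agent.N640.WR

open Finset SimpleGraph Pool.Agent.X76.Wr Pool.Agent.MPd14d18

/-- edge colourings of multigraphs vertex by vertex, with local conditions -/
def S_ELIM : Prop := ∀ (V : Type) [Fintype V] [DecidableEq V] (z : V → V → ℕ)
    (N : ℕ) (T : Finset V), (∀ x y, z x y = z y x) →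
    (∀ v ∈ T, ∑ w ∈ T.erase v, z v w ≤ N) →
    (∀ S ⊆ T, S.Nonempty → ∃ x ∈ S, ∃ u0, ∀ u ∈ S, u ≠ x → z x u ≠ 0 →
      (∑ w ∈ S.erase u, z u w) + z x u ≤ N + (if u = u0 then 1 else 0)) →
    ∃ m : ℕ → V → V, (∀ c v, m c (m c v) = v) ∧
      ∀ u w, u ≠ w → mu (Finset.range N) m u w = if u ∈ T ∧ w ∈ T then z u w else 0

/-- the layers -/
def S_LAY : Prop := ∀ d m t : ℕ, 1 ≤ m → t % 2 = 0 →
  ∃ (A : ℕ → Finset ℕ) (ψ : ℕ → ℕ → ℕ),
    (∀ i < d, ∀ δ ∈ A i, 1 ≤ δ ∧ δ < m ∧ m - δ ∈ A i) ∧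
    ∑ i ∈ Finset.range d, (A i).card = d * (m - 1) - t ∧
    (∀ i < d, ∀ δ, 1 ≤ δ → δ < m → δ ∉ A i → ψ i δ < t) ∧
    (∀ i < d, ∀ i' < d, ∀ δ δ', 1 ≤ δ → δ < m → δ ∉ A i → 1 ≤ δ' → δ' < m → δ' ∉ A i' →
      ψ i δ = ψ i' δ' → i = i' ∧ δ = δ')

/-- the numbers of new colours -/
def S_TT : Prop := ∀ (W : Type) [Fintype W] (G' : SimpleGraph W) (d : ℕ), 1 ≤ d →
  ∃ t : W → ℕ, (∀ v, t v % 2 = 0) ∧ (∀ v w, Ob G' v w ∨ G'.Adj v w → t v = t w) ∧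
    (∀ v, t v + 1 ≤ d * orb G' v) ∧
    (∀ v, ∃ u, Relation.ReflTransGen (fun a b => Ob G' a b ∨ G'.Adj a b) v u ∧
      d * orb G' u ≤ t u + 2)

/-- the colouring of the multigraph -/
def S_GCOL : Prop := ∀ (W : Type) [Fintype W] (G' : SimpleGraph W) [DecidableRel G'.Adj]
    (d D : ℕ) (idx : W → ℕ) (t : W → ℕ) (A : W → ℕ → Finset ℕ),
    1 ≤ d → (∀ w, d * orb G' w + G'.degree w ≤ D) →
    (∀ w, idx w < orb G' w) → (∀ w w', Ob G' w w' → idx w = idx w' → w = w') →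
    (∀ v w, Ob G' v w ∨ G'.Adj v w → t v = t w) →
    (∀ v, t v + 1 ≤ d * orb G' v) →
    (∀ v, ∃ u, Relation.ReflTransGen (fun a b => Ob G' a b ∨ G'.Adj a b) v u ∧
      d * orb G' u ≤ t u + 2) →
    (∀ v w, Ob G' v w → A v = A w) →
    (∀ v, ∀ i < d, ∀ δ ∈ A v i, 1 ≤ δ ∧ δ < orb G' v ∧ orb G' v - δ ∈ A v i) →
    (∀ v, ∑ i ∈ Finset.range d, (A v i).card = d * (orb G' v - 1) - t v) →
    ∃ g : W → W → ℕ → ℕ,
      (∀ v w i, ME G' d idx A v w i → g v w i + t v < D ∧ g v w i = g w v i) ∧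
      ∀ v w i w' i', ME G' d idx A v w i → ME G' d idx A v w' i' →
        g v w i = g v w' i' → w = w' ∧ i = i'

/-- the colouring of the wreath product -/
def S_ASM : Prop := ∀ (V W : Type) [Fintype V] [Fintype W] (G : SimpleGraph V)
    (G' : SimpleGraph W) [DecidableRel G'.Adj] (d D : ℕ) (idx : W → ℕ) (t : W → ℕ)
    (A : W → ℕ → Finset ℕ) (ψ : W → ℕ → ℕ → ℕ) (g : W → W → ℕ → ℕ),
    EC d G →
    (∀ w, d * orb G' w + G'.degree w ≤ D) →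
    (∀ w, idx w < orb G' w) → (∀ w w', Ob G' w w' → idx w = idx w' → w = w') →
    (∀ v, t v ≤ D) → (∀ v w, Ob G' v w → t v = t w ∧ A v = A w ∧ ψ v = ψ w) →
    (∀ v, ∀ i < d, ∀ δ ∈ A v i, 1 ≤ δ ∧ δ < orb G' v ∧ orb G' v - δ ∈ A v i) →
    (∀ v, ∀ i < d, ∀ δ, 1 ≤ δ → δ < orb G' v → δ ∉ A v i → ψ v i δ < t v) →
    (∀ v, ∀ i < d, ∀ i' < d, ∀ δ δ', 1 ≤ δ → δ < orb G' v → δ ∉ A v i →
      1 ≤ δ' → δ' < orb G' v → δ' ∉ A v i' → ψ v i δ = ψ v i' δ' → i = i' ∧ δ = δ') →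
    (∀ v w i, ME G' d idx A v w i → g v w i + t v < D ∧ g v w i = g w v i) →
    (∀ v w i w' i', ME G' d idx A v w i → ME G' d idx A v w' i' →
      g v w i = g v w' i' → w = w' ∧ i = i') →
    EC D (wreath G G')

/-- the theorem for edge colourings -/
def S_MAIN : Prop := ∀ (V W : Type) [Fintype V] [Fintype W] (G : SimpleGraph V)
    (G' : SimpleGraph W) [DecidableRel G'.Adj] (d D : ℕ), 1 ≤ d → EC d G →
    (∀ w, d * orb G' w + G'.degree w ≤ D) → EC D (wreath G G')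

open Classical in
/-- the translation to the chromatic index -/
def S_FRZ : Prop := S_MAIN →
    ∀ (V W : Type) [Fintype V] [Fintype W] (G : SimpleGraph V) (G' : SimpleGraph W)
      (H : SimpleGraph (V × W)),
      H = SimpleGraph.fromRel (fun p q : V × W =>
            (p.1 = q.1 ∧ G'.Adj p.2 q.2) ∨
            (G.Adj p.1 q.1 ∧ ∃ φ : G' ≃g G', φ p.2 = q.2)) →
      G.edgeSet.Nonempty →
      sInf {k : ℕ | ∃ c : Sym2 V → Fin k, ∀ e ∈ G.edgeSet, ∀ f ∈ G.edgeSet,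
              e ≠ f → (∃ v, v ∈ e ∧ v ∈ f) → c e ≠ c f} = G.maxDegree →
      sInf {k : ℕ | ∃ c : Sym2 (V × W) → Fin k, ∀ e ∈ H.edgeSet, ∀ f ∈ H.edgeSet,
              e ≠ f → (∃ v, v ∈ e ∧ v ∈ f) → c e ≠ c f} = H.maxDegree

end Pool.Agent.N640.WR
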