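import Pool.Agent.X76.Wreath

set_option autoImplicit false

/-!
Definitions for the edge colouring of wreath products.
-/

namespace Pool.Agent.N640.WR

open Finset SimpleGraph Pool.Agent.X76.Wr

/-- same orbit -/
def Ob {W : Type} (G' : SimpleGraph W) (v w : W) : Prop := ∃ φ : G' ≃g G', φ v = w

/-- difference of positions modulo the size of the orbit -/
noncomputable def df {W : Type} (G' : SimpleGraph W) (idx : W → ℕ) (v w : W) : ℕ :=
  (idx w + orb G' v - idx v) % orb G' v

/-- edges of the multigraph -/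
def ME {W : Type} (G' : SimpleGraph W) (d : ℕ) (idx : W → ℕ) (A : W → ℕ → Finset ℕ)
    (v w : W) (i : ℕ) : Prop :=
  (i = d ∧ G'.Adj v w) ∨ (i < d ∧ Ob G' v w ∧ v ≠ w ∧ df G' idx v w ∈ A v i)

end Pool.Agent.N640.WR
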